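import Pool.Agent.Work.MP_dbf1ea_an.V.Core
import Pool.Agent.Work.MP_dbf1ea_an.V.Op
import Pool.Agent.Work.MP_dbf1ea_an.V.Lattice
import Pool.Agent.Work.MP_dbf1ea_an.V.ExLin

set_option autoImplicit false

open scoped Manifold

namespace Pool.Agent.Results.MP_dbf1ea_an.Valette

/-- The word length of `y` with respect to `S`: the least length of a word in `S` with product `y`. -/
noncomputable def wordLen {Γ : Type} [Group Γ] (S : Finset Γ) (y : Γ) : ℕ :=
  sInf {n : ℕ | ∃ l : List Γ, l.length = n ∧ (∀ x ∈ l, x ∈ S) ∧ l.prod = y}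

/-- The Hilbert space of square summable complex functions. -/
abbrev L2 (Γ : Type) : Type := lp (fun _ : Γ => ℂ) 2

/-- `T` is the operator of left convolution by `f`. -/
def IsConv {Γ : Type} [Group Γ] (f : Γ →₀ ℂ) (T : L2 Γ →L[ℂ] L2 Γ) : Prop :=
  ∀ (ξ : L2 Γ) (x : Γ), T ξ x = ∑ y ∈ f.support, f y * ξ (y⁻¹ * x)

/-- Property RD for the word length of `S`. -/
def RD {Γ : Type} [Group Γ] (S : Finset Γ) : Prop :=
  ∃ C : ℝ, 0 < C ∧ ∃ s : ℝ, 0 ≤ s ∧ ∀ f : Γ →₀ ℂ, ∃ T : L2 Γ →L[ℂ] L2 Γ, IsConv f T ∧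
    ‖T‖ ≤ C * √(∑ y ∈ f.support, (‖f y‖ * (1 + (wordLen S y : ℝ)) ^ s) ^ 2)

/-- Every discrete cocompact subgroup of a connected real Lie group with semisimple Lie algebra is
finitely generated and has property RD for the word length of every finite symmetric generating
set, in the operator norm form. -/
theorem result :
    ∀ (E : Type) [NormedAddCommGroup E] [NormedSpace ℝ E] [FiniteDimensional ℝ E]
      [CompleteSpace E]
      (G : Type) [TopologicalSpace G] [ChartedSpace E G] [Group G]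
      [LieGroup 𝓘(ℝ, E) (minSmoothness ℝ 3) G] [ConnectedSpace G],
      LieAlgebra.IsSemisimple ℝ (GroupLieAlgebra 𝓘(ℝ, E) G) →
      ∀ Γ : Subgroup G, DiscreteTopology Γ → CompactSpace (G ⧸ Γ) →
        Group.FG Γ ∧ ∀ S : Finset Γ, (∀ x ∈ S, x⁻¹ ∈ S) → Subgroup.closure (S : Set Γ) = ⊤ →
          RD S := by
  intro E _ _ _ _ G _ _ _ _ _ h Γ _ _
  have : IsTopologicalGroup G := topologicalGroup_of_lieGroup 𝓘(ℝ, E) (minSmoothness ℝ 3)
  have : T1Space G := ChartedSpace.t1Space E G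
  have : ProperSpace E := FiniteDimensional.proper_real E
  have : LocallyCompactSpace G := ChartedSpace.locallyCompactSpace E G
  obtain ⟨n, ⟨Λ⟩⟩ := Pool.Agent.Work.MP_dbf1ea_an.V.exists_lin E G h
  obtain ⟨S0, hS0⟩ := Pool.Agent.Work.MP_dbf1ea_an.V.lat_fg Γ
  refine ⟨⟨⟨S0, hS0⟩⟩, fun S hs hS => ?_⟩
  obtain ⟨C, p, hC⟩ := Pool.Agent.Work.MP_dbf1ea_an.V.core hS
    (Pool.Agent.Work.MP_dbf1ea_an.V.Lin.up Γ Λ S hS)
  exact Pool.Agent.Work.MP_dbf1ea_an.V.conv_op hC _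
    (Pool.Agent.Work.MP_dbf1ea_an.V.len_mem_ball hs hS)

end Pool.Agent.Results.MP_dbf1ea_an.Valette
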